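import Pool.Agent.Lib.MP_ba0fa5_ag.AA.IfaceA
import Pool.Agent.Lib.MP_ba0fa5_ag.H78.Phi1

/-!
# Module PHIX: the factor `n / φ(n)` costs little
-/

set_option autoImplicit false

namespace Pool.Agent.Lib.MP_ba0fa5_ag.AA.H78

open scoped Classical
open Finset

theorem tail_aux (N : ℕ) (hN : 1 ≤ N) (M : ℕ) (hM : N ≤ M) :
    ∑ d ∈ Ioc N M, 1 / ((d : ℝ) * Real.sqrt d) ≤ 2 / Real.sqrt N - 2 / Real.sqrt M := by
  induction M, hM using Nat.le_induction with
  | base => simp
  | succ M hM ih =>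
    rw [Finset.sum_Ioc_succ_top (by omega)]
    have hM1 : (1 : ℝ) ≤ M := by exact_mod_cast hN.trans hM
    have hM0 : (0 : ℝ) < M := by linarith
    set s := Real.sqrt M with hs
    set t := Real.sqrt ((M + 1 : ℕ) : ℝ) with ht
    have hs0 : 0 < s := Real.sqrt_pos.2 hM0
    have ht2 : t * t = (M : ℝ) + 1 := by
      rw [ht, Real.mul_self_sqrt (by positivity)]; push_cast; ring
    have hs2 : s * s = (M : ℝ) := Real.mul_self_sqrt hM0.le
    have hst : s ≤ t := by
      rw [hs, ht]; apply Real.sqrt_le_sqrt; push_cast; linarith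
    have ht0 : 0 < t := lt_of_lt_of_le hs0 hst
    have key : 1 / (((M + 1 : ℕ) : ℝ) * t) ≤ 2 / s - 2 / t := by
      have e : ((M + 1 : ℕ) : ℝ) = t * t := by rw [ht2]; push_cast; ring
      rw [e, div_sub_div _ _ hs0.ne' ht0.ne', div_le_div_iff₀ (by positivity) (by positivity)]
      have h1 : (t - s) * (t + s) = 1 := by nlinarith
      have h2 : 0 ≤ t - s := by linarith
      have h3 : 1 ≤ (t - s) * (2 * t) := by nlinarith
      have h4 : s * t ≤ (t - s) * (2 * t) * (s * t) :=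
        le_mul_of_one_le_left (by positivity) h3
      have h5 : (t - s) * (2 * t) * (s * t) ≤ (t - s) * (2 * t) * (t * t) := by
        apply mul_le_mul_of_nonneg_left (mul_le_mul_of_nonneg_right hst ht0.le)
        positivity
      nlinarith
    linarith

theorem tail_sum (N : ℕ) (hN : 1 ≤ N) (M : ℕ) :
    ∑ d ∈ Ioc N M, 1 / ((d : ℝ) * Real.sqrt d) ≤ 2 / Real.sqrt N := by
  rcases le_total N M with h | h
  · have h1 := tail_aux N hN M h
    have h2 : 0 ≤ 2 / Real.sqrt M := by positivity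
    linarith
  · rw [Finset.Ioc_eq_empty (by omega), Finset.sum_empty]
    positivity

theorem phi_expand {n : ℕ} (hn : 1 ≤ n) :
    (n : ℝ) / n.totient ≤ ∑ d ∈ n.divisors.filter Squarefree, 1 / (d.totient : ℝ) := by
  have hp : ∀ p ∈ n.primeFactors, p.Prime := fun p hp => Nat.prime_of_mem_primeFactors hp
  have hphi : (0 : ℝ) < n.totient := by exact_mod_cast Nat.totient_pos.2 (by omega)
  have h1 : (n : ℝ) / n.totient = ∏ p ∈ n.primeFactors, (1 + 1 / ((p - 1 : ℕ) : ℝ)) := by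
    have h2 := Nat.totient_mul_prod_primeFactors n
    have h3 : (n.totient : ℝ) * ∏ p ∈ n.primeFactors, (p : ℝ)
        = n * ∏ p ∈ n.primeFactors, ((p - 1 : ℕ) : ℝ) := by
      rw [← Nat.cast_prod, ← Nat.cast_prod, ← Nat.cast_mul, ← Nat.cast_mul, h2]
    have h4 : ∏ p ∈ n.primeFactors, (1 + 1 / ((p - 1 : ℕ) : ℝ))
        = (∏ p ∈ n.primeFactors, (p : ℝ)) / ∏ p ∈ n.primeFactors, ((p - 1 : ℕ) : ℝ) := by
      rw [← Finset.prod_div_distrib]
      apply Finset.prod_congr rfl
      intro p hpm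
      have h5 : 2 ≤ p := (hp p hpm).two_le
      have h6 : ((p - 1 : ℕ) : ℝ) = (p : ℝ) - 1 := by
        rw [Nat.cast_sub (by omega)]; simp
      have h7 : (2 : ℝ) ≤ p := by exact_mod_cast h5
      have h9 : (p : ℝ) - 1 ≠ 0 := by linarith
      rw [h6, eq_div_iff h9, add_mul, one_div, inv_mul_cancel₀ h9]
      ring
    have h8 : (∏ p ∈ n.primeFactors, ((p - 1 : ℕ) : ℝ)) ≠ 0 := by
      apply Finset.prod_ne_zero_iff.2
      intro p hpm
      have h5 : 2 ≤ p := (hp p hpm).two_le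
      have : 0 < p - 1 := by omega
      exact_mod_cast this.ne'
    rw [h4, div_eq_div_iff hphi.ne' h8]
    linarith
  rw [h1, Finset.prod_one_add]
  have h2 : ∀ A ∈ n.primeFactors.powerset, ∏ p ∈ A, 1 / ((p - 1 : ℕ) : ℝ)
      = 1 / ((∏ l ∈ A, l).totient : ℝ) := by
    intro A hA
    rw [MP_ba0fa5_ag.H78.totient_prod (fun p hpA => hp p (mem_powerset.1 hA hpA))]
    push_cast
    rw [Finset.prod_div_distrib, Finset.prod_const_one]
  rw [Finset.sum_congr rfl h2]
  have hinj : Set.InjOn (fun A : Finset ℕ => ∏ l ∈ A, l)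
      (n.primeFactors.powerset : Set (Finset ℕ)) := by
    intro A hA A' hA' h
    have e1 := Nat.primeFactors_prod (fun p hpA => hp p (mem_powerset.1 hA hpA))
    have e2 := Nat.primeFactors_prod (fun p hpA => hp p (mem_powerset.1 hA' hpA))
    rw [← e1, ← e2]
    exact congrArg Nat.primeFactors h
  rw [← Finset.sum_image (f := fun d : ℕ => 1 / (d.totient : ℝ)) hinj]
  refine Finset.sum_le_sum_of_subset_of_nonneg ?_ (fun w _ _ => by positivity)
  intro w hw
  rw [mem_image] at hw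
  obtain ⟨A, hA, rfl⟩ := hw
  rw [mem_powerset] at hA
  rw [mem_filter, Nat.mem_divisors]
  refine ⟨⟨?_, by omega⟩, MP_ba0fa5_ag.H78.squarefree_prod_primes fun p hpA => hp p (hA hpA)⟩
  refine dvd_trans ?_ (Nat.prod_primeFactors_dvd n)
  exact Finset.prod_dvd_prod_of_subset A n.primeFactors (fun p => p) hA

theorem dl_nonneg (l : ℕ) : 0 ≤ dl l := by
  unfold dl; split_ifs <;> norm_num

theorem dl_le_one (l : ℕ) : dl l ≤ 1 := by
  unfold dl; split_ifs <;> norm_num

theorem ws_nonneg (n : ℕ) : 0 ≤ ws n :=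
  Finset.prod_nonneg fun l _ => pow_nonneg (dl_nonneg l) _

theorem ws_le_one (n : ℕ) : ws n ≤ 1 :=
  Finset.prod_le_one (fun l _ => pow_nonneg (dl_nonneg l) _)
    (fun l _ => pow_le_one₀ (dl_nonneg l) (dl_le_one l))

theorem fw_nonneg (n : ℕ) : 0 ≤ fw n := div_nonneg (ws_nonneg n) (by positivity)

theorem ws_div_le_fw (n : ℕ) : ws n / n ≤ fw n := by
  rcases Nat.eq_zero_or_pos n with rfl | hn
  · unfold fw; simp
  · unfold fw
    apply div_le_div_of_nonneg_left (ws_nonneg n)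
    · exact_mod_cast Nat.totient_pos.2 hn
    · exact_mod_cast Nat.totient_le n

theorem gt_of_coprime {W d : ℕ} (hd : d.Coprime (primorial W)) (h0 : d ≠ 0) (h1 : d ≠ 1) :
    W < d := by
  have hp := Nat.minFac_prime h1
  by_contra hcon
  push Not at hcon
  have hle : d.minFac ≤ W := (Nat.minFac_le (Nat.pos_of_ne_zero h0)).trans hcon
  have hdvd : d.minFac ∣ primorial W := by
    unfold primorial
    apply Finset.dvd_prod_of_mem (fun p => p)
    rw [mem_filter, mem_range]
    exact ⟨by omega, hp⟩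
  have := Nat.dvd_gcd (Nat.minFac_dvd d) hdvd
  rw [hd] at this
  exact hp.one_lt.ne' (Nat.dvd_one.1 this)

theorem sum_expand (W Y a : ℕ) (hY : 1 ≤ Y) (ha : a.Coprime (primorial W)) :
    ∑ n ∈ cls W a Y (Y ^ 3), fw n ≤ ∑ n ∈ cls W a Y (Y ^ 3), ws n / n +
      ∑ d ∈ (Ioc W (Y ^ 3)).filter (fun d => d.Coprime (primorial W)),
        1 / (d.totient : ℝ) * ∑ n ∈ (cls W a Y (Y ^ 3)).filter (fun n => d ∣ n), ws n / n := by
  set S := cls W a Y (Y ^ 3) with hS
  set T := (Ioc W (Y ^ 3)).filter (fun d => d.Coprime (primorial W)) with hT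
  have hSn : ∀ n ∈ S, 1 ≤ n ∧ n ≤ Y ^ 3 ∧ n.Coprime (primorial W) := by
    intro n hn
    rw [hS, cls, mem_filter, mem_Ioc] at hn
    refine ⟨by omega, hn.1.2, ?_⟩
    have h1 : Nat.gcd n (primorial W) = Nat.gcd a (primorial W) := hn.2.gcd_eq
    rw [Nat.Coprime, h1]
    exact ha
  have h1 : ∀ n ∈ S, fw n ≤ ws n / n + ∑ d ∈ T.filter (fun d => d ∣ n),
      1 / (d.totient : ℝ) * (ws n / n) := by
    intro n hn
    obtain ⟨hn1, hn2, hn3⟩ := hSn n hn
    have hn0 : (0 : ℝ) < n := by exact_mod_cast hn1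
    have hphi : (0 : ℝ) < n.totient := by exact_mod_cast Nat.totient_pos.2 (by omega)
    have e1 : fw n = (n : ℝ) / n.totient * (ws n / n) := by
      unfold fw
      field_simp
    rw [e1]
    have hw0 : 0 ≤ ws n / n := div_nonneg (ws_nonneg n) hn0.le
    refine (mul_le_mul_of_nonneg_right (phi_expand hn1) hw0).trans ?_
    have hmem : (1 : ℕ) ∈ n.divisors.filter Squarefree := by
      rw [mem_filter, Nat.mem_divisors]
      exact ⟨⟨one_dvd _, by omega⟩, squarefree_one⟩
    rw [← Finset.add_sum_erase _ _ hmem, add_mul]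
    apply add_le_add
    · simp
    · rw [Finset.sum_mul]
      apply Finset.sum_le_sum_of_subset_of_nonneg
      · intro d hd
        rw [mem_erase, mem_filter, Nat.mem_divisors] at hd
        obtain ⟨hd1, ⟨hd2, hd3⟩, -⟩ := hd
        have hd0 : d ≠ 0 := by rintro rfl; exact hd3 (zero_dvd_iff.1 hd2)
        have hdc : d.Coprime (primorial W) := hn3.coprime_dvd_left hd2
        rw [mem_filter, hT, mem_filter, mem_Ioc]
        exact ⟨⟨⟨gt_of_coprime hdc hd0 hd1, (Nat.le_of_dvd hn1 hd2).trans hn2⟩, hdc⟩, hd2⟩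
      · intro d _ _
        exact mul_nonneg (by positivity) hw0
  refine (Finset.sum_le_sum h1).trans ?_
  rw [Finset.sum_add_distrib]
  apply add_le_add le_rfl
  apply le_of_eq
  simp_rw [Finset.mul_sum, Finset.sum_filter]
  rw [Finset.sum_comm]

theorem phix (h1 : ApsumStmt) (h2 : ClasslowStmt) (h3 : TrivStmt) (h4 : DivbStmt) :
    PhixStmt := by
  obtain ⟨C1, hC1, h1⟩ := h1
  obtain ⟨c2, hc2, h2⟩ := h2
  obtain ⟨C3, hC3, h3⟩ := h3
  obtain ⟨C4, hC4, h4⟩ := h4 (1 / 4) (by norm_num)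
  refine ⟨(2 * C1 * C4 ^ 2 + 1) / c2, by positivity, ?_⟩
  intro W hW
  obtain ⟨Y1, h1⟩ := h1 W 40 hW
  obtain ⟨Y2, h2⟩ := h2 W hW
  have hW1 : (1 : ℝ) ≤ W := by exact_mod_cast (by omega : 1 ≤ W)
  have hW0 : (0 : ℝ) < W := by linarith
  set om : ℝ := (W : ℝ) ^ (-(1 / 4) : ℝ) with hom
  have hom0 : 0 < om := Real.rpow_pos_of_pos hW0 _
  have hprim : 0 < primorial W := primorial_pos W
  have hphW : (0 : ℝ) < (primorial W).totient := by exact_mod_cast Nat.totient_pos.2 hprim
  -- size of log Y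
  obtain ⟨Y3, hY3⟩ : ∃ Y3 : ℕ, ∀ Y : ℕ, Y3 ≤ Y →
      max 4 (2 * C3 * C4 * (primorial W).totient / om) ≤ Real.log Y := by
    have := (Real.tendsto_log_atTop.comp tendsto_natCast_atTop_atTop).eventually_ge_atTop
      (max 4 (2 * C3 * C4 * (primorial W).totient / om))
    rw [Filter.eventually_atTop] at this
    exact this
  refine ⟨max (max Y1 Y2) (max Y3 (max W 2)), ?_⟩
  intro Y a hY ha
  have hYY1 : Y1 ≤ Y := by omega
  have hYY2 : Y2 ≤ Y := by omega
  have hYY3 : Y3 ≤ Y := by omega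
  have hYW : W ≤ Y := by omega
  have hY2 : 2 ≤ Y := by omega
  have hL := hY3 Y hYY3
  set L := Real.log Y with hLdef
  have hL4 : 4 ≤ L := (le_max_left _ _).trans hL
  have hLb : 2 * C3 * C4 * (primorial W).totient / om ≤ L := (le_max_right _ _).trans hL
  have hL0 : 0 < L := by linarith
  have hSS0 : 1 / ((primorial W).totient : ℝ) ≤ SS W Y := by
    unfold SS
    apply div_le_div_of_nonneg_right _ hphW.le
    apply Real.one_le_rpow _ (by norm_num)
    have hlW : 0 < Real.log W := Real.log_pos (by exact_mod_cast (by omega : 1 < W))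
    rw [one_le_div hlW]
    exact Real.log_le_log hW0 (by exact_mod_cast hYW)
  have hSSpos : 0 < SS W Y := lt_of_lt_of_le (by positivity) hSS0
  set M := ∑ n ∈ cls W a Y (Y ^ 3), ws n / n with hM
  have hM1 : c2 * SS W Y ≤ M := h2 Y a hYY2 ha
  refine (sum_expand W Y a (by omega) ha).trans ?_
  rw [← hM]
  set T := (Ioc W (Y ^ 3)).filter (fun d => d.Coprime (primorial W)) with hT
  set g : ℕ → ℝ := fun d => 1 / (d.totient : ℝ) *
    ∑ n ∈ (cls W a Y (Y ^ 3)).filter (fun n => d ∣ n), ws n / n with hg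
  have hTd : ∀ d ∈ T, 1 ≤ d ∧ W < d ∧ d ≤ Y ^ 3 ∧ d.Coprime (primorial W) := by
    intro d hd
    rw [hT, mem_filter, mem_Ioc] at hd
    exact ⟨by omega, hd.1.1, hd.1.2, hd.2⟩
  have hphi : ∀ d : ℕ, 1 ≤ d → 1 / (d.totient : ℝ) ≤ C4 * (d : ℝ) ^ (1 / 4 : ℝ) / d := by
    intro d hd
    have hd0 : (0 : ℝ) < d := by exact_mod_cast hd
    have hph : (0 : ℝ) < d.totient := by exact_mod_cast Nat.totient_pos.2 (by omega)
    have := (h4 d hd).2.1
    rw [div_le_div_iff₀ hph hd0, one_mul]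
    rwa [div_le_iff₀ hph] at this
  have hq : ∀ d : ℕ, 1 ≤ d → (d : ℝ) ^ (1 / 4 : ℝ) * (d : ℝ) ^ (1 / 4 : ℝ) = Real.sqrt d := by
    intro d hd
    have hd0 : (0 : ℝ) < d := by exact_mod_cast hd
    rw [← Real.rpow_add hd0, Real.sqrt_eq_rpow]
    norm_num
  have hq1 : ∀ d : ℕ, 1 ≤ d → (1 : ℝ) ≤ (d : ℝ) ^ (1 / 4 : ℝ) := by
    intro d hd
    exact Real.one_le_rpow (by exact_mod_cast hd) (by norm_num)
  -- small d
  have hsmall : ∑ d ∈ T.filter (fun d : ℕ => (d : ℝ) ≤ L ^ 40), g d ≤ 2 * C1 * C4 ^ 2 * om * SS W Y := by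
    have hb : ∀ d ∈ T.filter (fun d : ℕ => (d : ℝ) ≤ L ^ 40),
        g d ≤ C1 * SS W Y * C4 ^ 2 * (1 / ((d : ℝ) * Real.sqrt d)) := by
      intro d hd
      rw [mem_filter] at hd
      obtain ⟨hd1, hd2, hd3, hd4⟩ := hTd d hd.1
      have hd0 : (0 : ℝ) < d := by exact_mod_cast hd1
      have hph : (0 : ℝ) < d.totient := by exact_mod_cast Nat.totient_pos.2 (by omega)
      have hin : ∑ n ∈ (cls W a Y (Y ^ 3)).filter (fun n => d ∣ n), ws n / n
          ≤ C1 * SS W Y / d.totient := by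
        have h5 := h1 Y d a 0 hYY1 hd1 hd.2 hd4 ha
        refine le_trans ?_ h5
        have e : (cls W a Y (Y ^ 3)).filter (fun n => n ≡ 0 [MOD d])
            = (cls W a Y (Y ^ 3)).filter (fun n => d ∣ n) := by
          apply Finset.filter_congr
          intro n _
          exact Nat.modEq_zero_iff_dvd
        rw [e]
        exact Finset.sum_le_sum fun n _ => ws_div_le_fw n
      have hp := hphi d hd1
      calc g d ≤ 1 / (d.totient : ℝ) * (C1 * SS W Y / d.totient) :=
            mul_le_mul_of_nonneg_left hin (by positivity)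
        _ = C1 * SS W Y * ((1 / (d.totient : ℝ)) * (1 / (d.totient : ℝ))) := by ring
        _ ≤ C1 * SS W Y * ((C4 * (d : ℝ) ^ (1 / 4 : ℝ) / d) * (C4 * (d : ℝ) ^ (1 / 4 : ℝ) / d)) := by
            apply mul_le_mul_of_nonneg_left _ (by positivity)
            exact mul_le_mul hp hp (by positivity) (by positivity)
        _ = C1 * SS W Y * C4 ^ 2 * (((d : ℝ) ^ (1 / 4 : ℝ) * (d : ℝ) ^ (1 / 4 : ℝ)) / (d * d)) := by
            ring
        _ = C1 * SS W Y * C4 ^ 2 * (1 / ((d : ℝ) * Real.sqrt d)) := by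
            rw [hq d hd1]
            congr 1
            have hs : Real.sqrt d * Real.sqrt d = d := Real.mul_self_sqrt hd0.le
            have hs0 : 0 < Real.sqrt d := Real.sqrt_pos.2 hd0
            rw [div_eq_div_iff (by positivity) (by positivity)]
            nlinarith
    refine (Finset.sum_le_sum hb).trans ?_
    rw [← Finset.mul_sum]
    have hsub : T.filter (fun d : ℕ => (d : ℝ) ≤ L ^ 40) ⊆ Ioc W (Y ^ 3) :=
      (Finset.filter_subset _ _).trans (Finset.filter_subset _ _)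
    have h5 : ∑ d ∈ T.filter (fun d : ℕ => (d : ℝ) ≤ L ^ 40), 1 / ((d : ℝ) * Real.sqrt d)
        ≤ 2 / Real.sqrt W :=
      (Finset.sum_le_sum_of_subset_of_nonneg hsub (fun d _ _ => by positivity)).trans
        (tail_sum W (by omega) _)
    have h6 : 1 / Real.sqrt W ≤ om := by
      rw [hom, Real.sqrt_eq_rpow, one_div, ← Real.rpow_neg hW0.le]
      exact Real.rpow_le_rpow_of_exponent_le hW1 (by norm_num)
    calc C1 * SS W Y * C4 ^ 2 * ∑ d ∈ T.filter (fun d : ℕ => (d : ℝ) ≤ L ^ 40),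
          1 / ((d : ℝ) * Real.sqrt d)
        ≤ C1 * SS W Y * C4 ^ 2 * (2 / Real.sqrt W) :=
          mul_le_mul_of_nonneg_left h5 (by positivity)
      _ = 2 * C1 * C4 ^ 2 * SS W Y * (1 / Real.sqrt W) := by ring
      _ ≤ 2 * C1 * C4 ^ 2 * SS W Y * om := mul_le_mul_of_nonneg_left h6 (by positivity)
      _ = 2 * C1 * C4 ^ 2 * om * SS W Y := by ring
  -- large d
  have hlarge : ∑ d ∈ T.filter (fun d : ℕ => ¬ (d : ℝ) ≤ L ^ 40), g d ≤ om * SS W Y := by
    set N := ⌊L ^ 40⌋₊ with hN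
    have hLpow : L ^ 4 + 1 ≤ L ^ 40 := by
      have h7 : L ^ 4 * 2 ≤ L ^ 40 := by
        have : L ^ 40 = L ^ 4 * L ^ 36 := by ring
        rw [this]
        apply mul_le_mul_of_nonneg_left _ (by positivity)
        calc (2 : ℝ) ≤ 4 := by norm_num
          _ ≤ L := hL4
          _ ≤ L ^ 36 := le_self_pow₀ (by linarith) (by norm_num)
      have h8 : 1 ≤ L ^ 4 := one_le_pow₀ (by linarith)
      linarith
    have hNge : L ^ 4 ≤ N := by
      have := Nat.lt_floor_add_one (L ^ 40)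
      rw [← hN] at this
      linarith
    have hN1 : 1 ≤ N := by
      have h8 : 1 ≤ L ^ 4 := one_le_pow₀ (by linarith)
      have : (1 : ℝ) ≤ N := h8.trans hNge
      exact_mod_cast this
    have hsqN : L ^ 2 ≤ Real.sqrt N := by
      apply Real.le_sqrt_of_sq_le
      have e : (L ^ 2) ^ 2 = L ^ 4 := by ring
      rw [e]; exact hNge
    have hb : ∀ d ∈ T.filter (fun d : ℕ => ¬ (d : ℝ) ≤ L ^ 40),
        g d ≤ C3 * C4 * L * (1 / ((d : ℝ) * Real.sqrt d)) := by
      intro d hd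
      rw [mem_filter] at hd
      obtain ⟨hd1, hd2, hd3, hd4⟩ := hTd d hd.1
      have hd0 : (0 : ℝ) < d := by exact_mod_cast hd1
      have hph : (0 : ℝ) < d.totient := by exact_mod_cast Nat.totient_pos.2 (by omega)
      have hin : ∑ n ∈ (cls W a Y (Y ^ 3)).filter (fun n => d ∣ n), ws n / n
          ≤ C3 * L / d := by
        refine le_trans ?_ (h3 Y d 0 hY2 hd1).2.1
        calc ∑ n ∈ (cls W a Y (Y ^ 3)).filter (fun n => d ∣ n), ws n / n
            ≤ ∑ n ∈ (cls W a Y (Y ^ 3)).filter (fun n => d ∣ n), (1 : ℝ) / n := by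
              apply Finset.sum_le_sum
              intro n _
              exact div_le_div_of_nonneg_right (ws_le_one n) (by positivity)
          _ ≤ _ := by
              apply Finset.sum_le_sum_of_subset_of_nonneg
              · exact Finset.filter_subset_filter _ (Finset.filter_subset _ _)
              · intro n _ _; positivity
      have hp := hphi d hd1
      have hqd := hq1 d hd1
      calc g d ≤ 1 / (d.totient : ℝ) * (C3 * L / d) :=
            mul_le_mul_of_nonneg_left hin (by positivity)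
        _ ≤ (C4 * (d : ℝ) ^ (1 / 4 : ℝ) / d) * (C3 * L / d) :=
            mul_le_mul_of_nonneg_right hp (by positivity)
        _ = C3 * C4 * L * ((d : ℝ) ^ (1 / 4 : ℝ) / (d * d)) := by ring
        _ ≤ C3 * C4 * L * (((d : ℝ) ^ (1 / 4 : ℝ) * (d : ℝ) ^ (1 / 4 : ℝ)) / (d * d)) := by
            apply mul_le_mul_of_nonneg_left _ (by positivity)
            apply div_le_div_of_nonneg_right _ (by positivity)
            exact le_mul_of_one_le_left (by positivity) hqd
        _ = C3 * C4 * L * (1 / ((d : ℝ) * Real.sqrt d)) := by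
            rw [hq d hd1]
            congr 1
            have hs : Real.sqrt d * Real.sqrt d = d := Real.mul_self_sqrt hd0.le
            have hs0 : 0 < Real.sqrt d := Real.sqrt_pos.2 hd0
            rw [div_eq_div_iff (by positivity) (by positivity)]
            nlinarith
    refine (Finset.sum_le_sum hb).trans ?_
    rw [← Finset.mul_sum]
    have hsub : T.filter (fun d : ℕ => ¬ (d : ℝ) ≤ L ^ 40) ⊆ Ioc N (Y ^ 3) := by
      intro d hd
      rw [mem_filter] at hd
      have hd3 := (hTd d hd.1).2.2.1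
      rw [mem_Ioc]
      refine ⟨?_, hd3⟩
      by_contra hcon
      push Not at hcon
      apply hd.2
      calc (d : ℝ) ≤ N := by exact_mod_cast hcon
        _ ≤ L ^ 40 := Nat.floor_le (by positivity)
    have h5 : ∑ d ∈ T.filter (fun d : ℕ => ¬ (d : ℝ) ≤ L ^ 40), 1 / ((d : ℝ) * Real.sqrt d)
        ≤ 2 / Real.sqrt N :=
      (Finset.sum_le_sum_of_subset_of_nonneg hsub (fun d _ _ => by positivity)).trans
        (tail_sum N hN1 _)
    have h6 : 2 / Real.sqrt N ≤ 2 / L ^ 2 :=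
      div_le_div_of_nonneg_left (by norm_num) (by positivity) hsqN
    calc C3 * C4 * L * ∑ d ∈ T.filter (fun d : ℕ => ¬ (d : ℝ) ≤ L ^ 40), 1 / ((d : ℝ) * Real.sqrt d)
        ≤ C3 * C4 * L * (2 / L ^ 2) :=
          mul_le_mul_of_nonneg_left (h5.trans h6) (by positivity)
      _ = 2 * C3 * C4 / L := by field_simp
      _ ≤ om * (1 / (primorial W).totient) := by
          rw [div_le_iff₀ hom0] at hLb
          rw [mul_one_div, div_le_div_iff₀ hL0 hphW]
          linarith
      _ ≤ om * SS W Y := mul_le_mul_of_nonneg_left hSS0 hom0.le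
  have hsplit : ∑ d ∈ T, g d = ∑ d ∈ T.filter (fun d : ℕ => (d : ℝ) ≤ L ^ 40), g d +
      ∑ d ∈ T.filter (fun d : ℕ => ¬ (d : ℝ) ≤ L ^ 40), g d :=
    (Finset.sum_filter_add_sum_filter_not T _ g).symm
  have hfin : ∑ d ∈ T, g d ≤ (2 * C1 * C4 ^ 2 + 1) * om * SS W Y := by
    rw [hsplit]; linarith
  have hSSM : SS W Y ≤ M / c2 := by rw [le_div_iff₀ hc2]; linarith
  calc M + ∑ d ∈ T, g d ≤ M + (2 * C1 * C4 ^ 2 + 1) * om * (M / c2) := by
        have : (2 * C1 * C4 ^ 2 + 1) * om * SS W Y ≤ (2 * C1 * C4 ^ 2 + 1) * om * (M / c2) :=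
          mul_le_mul_of_nonneg_left hSSM (by positivity)
        linarith
    _ = (1 + (2 * C1 * C4 ^ 2 + 1) / c2 * om) * M := by ring

end Pool.Agent.Lib.MP_ba0fa5_ag.AA.H78
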